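import Pool.Agent.Mg.Fdb74b1.Ge82456
import Pool.Agent.Mg.Fdb74b1.Gcd3cd4
import Pool.Agent.MP_db74b1_al.LtSz
import Pool.Agent.Mg.Fdb74b1.G4a8661
import Pool.Agent.Mg.Fdb74b1.G990363
import Pool.Agent.Mg.Fdb74b1.G144fb3

set_option autoImplicit false

namespace Pool.Agent.Results.MP_db74b1_al.LieType

open Pool.Agent.MP_db74b1_al.Exc Pool.Agent.MP_db74b1_al.Lt

/-- For a finite field `K`: `G` is a finite simple group of Lie type whose defining module is over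
`K`, other than the Tits group. In order: classical groups; `E₆, E₇, E₈`; `F₄` and
`²E₆`; `G₂` and `³D₄`; Suzuki groups `²B₂` and Ree groups `²F₄`; Ree groups `²G₂`. -/
def IsLie (K G : Type) [Field K] [Group G] : Prop :=
  (∃ n : ℕ, IsClassical K (Fin n → K) G) ∨
  (∃ n : ℕ, (n = 6 ∨ n = 7 ∨ n = 8) ∧ IsCentralQuotient G (chevP n false (RingHom.id K))) ∨
  (∃ τ : K →+* K, (∀ t, τ (τ t) = t) ∧ IsCentralQuotient G (chevP 6 true τ)) ∨
  (∃ τ : K →+* K, (∀ t, τ (τ (τ t)) = t) ∧ 2 < Nat.card K ∧ Nonempty (G ≃* tri τ)) ∨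
  (∃ θ : K →+* K, (∀ t, θ (θ t) = t ^ 2) ∧ 2 < Nat.card K ∧
    (IsSR G b2s b2l θ ∨ IsSR G f4s f4l θ)) ∨
  (∃ θ : K →+* K, (∀ t, θ (θ t) = t ^ 3) ∧ 3 < Nat.card K ∧ IsSR G g2s g2l θ)

/-- Arad-Herzog for the finite simple groups of Lie type. -/
theorem result (K G : Type) [Field K] [Finite K] [Group G] (hG : IsLie K G) : AH G := by
  have hr : 2 < Nat.card K → ∃ r : K, r ≠ 0 ∧ r ≠ 1 := fun h => by
    have := Fintype.ofFinite K
    rw [Nat.card_eq_fintype_card] at h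
    obtain ⟨a, b, c, h1, h2, h3⟩ := Fintype.two_lt_card_iff.1 h
    by_contra hh
    push Not at hh
    have k : ∀ r : K, r = 0 ∨ r = 1 := fun r => (eq_or_ne r 0).imp id (hh r)
    rcases k a with rfl | rfl <;> rcases k b with rfl | rfl <;> rcases k c with rfl | rfl <;>
      simp_all
  rcases hG with ⟨n, h⟩ | ⟨n, h, ⟨f⟩⟩ | ⟨τ, h, ⟨f⟩⟩ | ⟨τ, h, hK, ⟨f⟩⟩ | ⟨θ, h, hK, hG | hG⟩ |
    ⟨θ, h, hK, hG⟩
  · intro x y z hx hy hE
    exact classical K (Fin n → K) G h ⟨x, y, z, hx, hy, hE⟩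
  · exact AH_congr f.symm (exceptional2 n false _ (Or.inl ⟨rfl, rfl, h⟩))
  · exact AH_congr f.symm (exceptional2 6 true τ (Or.inr ⟨rfl, rfl, RingHom.ext h⟩))
  · exact AH_congr f.symm (tri_AH τ h fun _ => hr hK)
  · exact sz_AH θ h hK G hG
  · exact f4_AH' θ h hK G hG
  · exact ree_AH θ h hK G hG

end Pool.Agent.Results.MP_db74b1_al.LieType
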